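import Pool.Agent.SND.Main
import Pool.Agent.SND.ScF

set_option autoImplicit false

/-!
# A strongly inaccessible cardinal with a saturated ideal and without diamond

The definitions are in `Pool.Agent.SND.Defs`, `Pool.Agent.SND.ScDefs` and
`Pool.Agent.Helper23.CK.Defs`.
-/

namespace Pool.Agent.Results.MP_e21c15_lc.SaturatedIdealNoDiamond

open Pool.SND

/-- If `κ` is `2 ^ κ`-supercompact and some ordinal `μ` of size less than `2 ^ κ` carries a
`κ⁺`-complete `κ⁺`-saturated ideal containing the bounded sets, then there is a countable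
transitive model of ZFC in which some strongly inaccessible cardinal `t` carries a `t⁺`-saturated
ideal and the diamond principle fails for `t`. -/
theorem result (κ μ : Ordinal.{0}) (W : Ultrafilter (Set Ordinal.{0})) (J : Set (Set Ordinal.{0}))
    (hW : IsSupercompactMeasure κ (2 ^ κ.card : Cardinal.{0}).ord W) (hJ : IsSatIdeal κ μ J)
    (hc : μ.card < 2 ^ κ.card) :
    ∃ M : ZFSet.{0}, IsExample M := by
  have h1 : κ ≤ (2 ^ κ.card : Cardinal.{0}).ord := by
    refine le_of_lt (Cardinal.lt_ord.2 ?_)
    exact Cardinal.cantor κ.card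
  obtain ⟨o, U, hU, ho⟩ := exists_coherent hW h1 (Cardinal.card_ord _) hc.le
  subst ho
  exact example_of_coherent κ o U J hU hJ hc

end Pool.Agent.Results.MP_e21c15_lc.SaturatedIdealNoDiamond
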